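import Mathlib

namespace Pool.Agent.Results.MP_e403d1_gt.Counter

open Filter Topology
open scoped Pointwise ENNReal

/-- `(1/n)U` -/
def frac {G : Type} [AddCommGroup G] (U : Set G) (n : ℕ) : Set G :=
  {x | ∀ k : ℕ, 1 ≤ k → k ≤ n → k • x ∈ U}

/-- no strictly coarser Hausdorff group topology (`τ ≤ σ` says that `σ` is coarser than `τ`) -/
def IsMinimal (G : Type) [AddCommGroup G] [τ : TopologicalSpace G] : Prop :=
  ∀ σ : TopologicalSpace G, @IsTopologicalAddGroup G σ _ → @T2Space G σ → τ ≤ σ → σ = τ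

/-- uniformly free from small subgroups -/
def UFSS (G : Type) [AddCommGroup G] [TopologicalSpace G] : Prop :=
  ∃ U ∈ 𝓝 (0 : G), -U = U ∧ (𝓝 (0 : G)).HasBasis (fun n => 1 ≤ n) (frac U)

/-- almost minimal groups -/
def AlmostMinimal (G : Type) [AddCommGroup G] [TopologicalSpace G] : Prop :=
  ∃ N : AddSubgroup G, IsClosed (N : Set G) ∧ IsMinimal N ∧ UFSS (G ⧸ N)

lemma frac_mem {G : Type} [AddCommGroup G] [TopologicalSpace G] [IsTopologicalAddGroup G]
    {U : Set G} (hU : U ∈ 𝓝 (0 : G)) (n : ℕ) : frac U n ∈ 𝓝 (0 : G) :=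
  mem_of_superset ((biInter_finset_mem (Finset.range (n + 1))).2 fun k _ =>
    (continuous_nsmul k).tendsto' 0 0 (nsmul_zero k) hU) fun _ hx k _ hk =>
      Set.mem_iInter₂.1 hx k (Finset.mem_range.2 (Nat.lt_succ_of_le hk))

lemma minimal_of {N K : Type} [AddCommGroup N] [τ : TopologicalSpace N] [IsTopologicalAddGroup N]
    [AddCommGroup K] [TopologicalSpace K] [IsTopologicalAddGroup K] [CompactSpace K]
    (j : N →+ K) (hj : IsInducing j) (h1 : ∀ x, ∃ y, j y = 2 • x)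
    (h2 : ∀ x, 2 • x = 0 → ∃ y, j y = x) : IsMinimal N := by
  have T : ∀ (f : N → N) (l : Filter N) (y : N), Tendsto (j ∘ f) l (𝓝 (j y)) →
    Tendsto f l (𝓝 y) := fun _ _ _ => hj.tendsto_nhds_iff.2
  intro σ s1 s2 le
  refine (le_antisymm le ?_).symm
  have key : @nhds N σ 0 ≤ @nhds N τ 0 := by
    refine le_iff_ultrafilter.2 fun F hF => ?_
    obtain ⟨x, -, hx⟩ := isCompact_univ.ultrafilter_le_nhds (F.map j) (by simp)
    have c : ∀ (f : N → N) (y : N), Tendsto (fun a => j (f a)) F (𝓝 (j y)) →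
        Tendsto f F (@nhds N σ 0) → y = 0 := fun f y a b =>
      @tendsto_nhds_unique _ _ σ s2 _ _ _ _ _ ((T f F y a).mono_right (@nhds_mono _ τ σ y le)) b
    obtain ⟨y, hy⟩ := h1 x
    have e : y = 0 := c (fun a => 2 • a) y (by
      simp only [map_nsmul, hy]; exact Tendsto.nsmul hx 2) (by
      have := @continuous_nsmul N σ _ (@IsTopologicalAddGroup.toContinuousAdd N σ _ s1) 2
      have := @Continuous.tendsto' _ _ σ σ _ this 0 0 (nsmul_zero 2)
      exact this.mono_left hF)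
    obtain ⟨z, hz⟩ := h2 x (by rw [← hy, e, map_zero])
    have e' : z = 0 := c id z (hz ▸ hx) hF
    exact T id F 0 (by rw [← e', hz]; exact hx)
  refine (@continuous_id_iff_le _ σ τ).1 ?_
  exact @continuous_of_continuousAt_zero N σ _ s1 N _ _ τ _ _ _ (AddMonoidHom.id N) key

/-- pairs `(z, r)` with `r = a / 3^n` and `z ≡ a` modulo `2` -/
def R : AddSubgroup (ZMod 4 × ℝ) where
  carrier := {x | ∃ (n : ℕ) (a : ℤ), x.2 * 3 ^ n = a ∧ 2 • x.1 = 2 • (a : ZMod 4)}
  zero_mem' := ⟨0, 0, by simp, by simp⟩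
  neg_mem' := fun ⟨n, a, h1, h2⟩ => ⟨n, -a, by simp [h1], by
    rw [Prod.fst_neg, smul_neg, h2, Int.cast_neg, smul_neg]⟩
  add_mem' := fun {x y} ⟨n, a, h1, h2⟩ ⟨m, b, h3, h4⟩ => ⟨n + m, a * 3 ^ m + b * 3 ^ n, by
    push_cast; rw [← h1, ← h3, Prod.snd_add]; ring, by
    have e : ∀ k : ℕ, (2 : ZMod 4) * 3 ^ k = 2 := fun k => by
      induction k with
      | zero => simp
      | succ k ih => rw [pow_succ, ← mul_assoc, ih]; decide
    rw [Prod.fst_add, smul_add, h2, h4]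
    push_cast
    simp only [nsmul_eq_mul, Nat.cast_ofNat]
    linear_combination (-a) * e m - b * e n⟩

lemma R0 {z : ZMod 4} : (z, (0 : ℝ)) ∈ R ↔ 2 • z = 0 :=
  ⟨fun ⟨n, a, h1, h2⟩ => by
    have : a = 0 := by
      have : (a : ℝ) = 0 := by rw [← h1]; simp
      exact_mod_cast this
    simpa [this] using h2, fun h => ⟨0, 0, by simp, by simpa using h⟩⟩

lemma R1 (m : ℕ) : ((1 : ZMod 4), ((3 : ℝ) ^ m)⁻¹) ∈ R := ⟨m, 1, by simp, by simp⟩

lemma R2 {z : ZMod 4} {r : ℝ} (h : (z, r) ∈ R) (h' : (r : AddCircle (√2)) = 0) : r = 0 := by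
  obtain ⟨n, a, h1, -⟩ := h
  obtain ⟨b, rfl⟩ := (AddCircle.coe_eq_zero_iff _).1 h'
  by_cases hb : b = 0
  · simp [hb]
  · exfalso
    have := (irrational_sqrt_two.intCast_mul hb).mul_natCast (m := 3 ^ n) (by positivity)
    exact this.ne_int a (by simpa using h1)

abbrev K := ℕ × ℕ → ZMod 4
abbrev E := lp (fun _ : ℕ => ℝ) ∞

def P (x : K × E) : Prop := ∀ᶠ a in cofinite, (x.1 a, x.2 a.1) ∈ R

noncomputable def G : AddSubgroup (K × E) where
  carrier := {x | P x}
  zero_mem' := (Eventually.of_forall fun _ => R.zero_mem : P 0)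
  neg_mem' := fun {x} (h : P x) => (Eventually.mono h fun _ h => R.neg_mem h : P (-x))
  add_mem' := fun {x y} (h : P x) (h' : P y) =>
    ((Eventually.and h h').mono fun _ h => R.add_mem h.1 h.2 : P (x + y))

lemma memG {x : K × E} : x ∈ G ↔ ∀ᶠ a in cofinite, (x.1 a, x.2 a.1) ∈ R := Iff.rfl

noncomputable def pr : G →+ E := (AddMonoidHom.snd K E).comp G.subtype

lemma pr_cont : Continuous pr := continuous_snd.comp continuous_subtype_val

lemma nh {S : Set G} (hS : S ∈ 𝓝 (0 : G)) : ∃ (I : Finset (ℕ × ℕ)) (ε : ℝ), 0 < ε ∧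
    ∀ g : G, (∀ a ∈ I, g.1.1 a = 0) → ‖g.1.2‖ < ε → g ∈ S := by
  obtain ⟨T, hT, hs⟩ := (mem_nhds_subtype _ _ _).1 hS
  obtain ⟨A, hA, B, hB, h⟩ := mem_nhds_prod_iff.1 hT
  obtain ⟨ε, e1, e2⟩ := Metric.mem_nhds_iff.1 hB
  rw [nhds_pi] at hA
  obtain ⟨I, t, t1, t2⟩ := mem_pi'.1 hA
  exact ⟨I, ε, e1, fun g g1 g2 => hs (h ⟨t2 fun a ha => by
    rw [g1 a ha]; exact mem_of_mem_nhds (t1 a), e2 (by simpa using g2)⟩)⟩

lemma am : AlmostMinimal G := by
  classical
  refine ⟨pr.ker, isClosed_singleton.preimage pr_cont, ?_, ?_⟩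
  · let j : pr.ker →+ K := ((AddMonoidHom.fst K E).comp G.subtype).comp pr.ker.subtype
    have a : ∀ x : K, 2 • x = 0 → ∃ y, j y = x := fun x h =>
      ⟨⟨⟨(x, 0), memG.2 (.of_forall fun a => R0.2 (congrFun h a))⟩, rfl⟩, rfl⟩
    have e : (fun x : K => (x, (0 : E))) ∘ j = Subtype.val ∘ Subtype.val :=
      funext fun y => Prod.ext rfl y.2.symm
    refine minimal_of j (.of_comp (g := fun x : K => (x, (0 : E)))
      (show Continuous fun y : pr.ker => y.1.1.1 by fun_prop) (by fun_prop)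
      (e ▸ IsInducing.subtypeVal.comp .subtypeVal)) (fun x => a _ ?_) a
    ext b
    have : ∀ z : ZMod 4, 2 • 2 • z = 0 := by decide
    exact this _
  · let q := QuotientAddGroup.lift pr.ker pr fun _ h => h
    have hq : Continuous q := pr_cont.quotient_lift _
    have hU : q ⁻¹' Metric.ball 0 1 ∈ 𝓝 0 :=
      hq.tendsto' 0 0 (map_zero q) (Metric.ball_mem_nhds _ one_pos)
    refine ⟨_, hU, by ext; simp, ⟨fun S => ⟨fun hS => ?_, fun ⟨n, _, h⟩ =>
      mem_of_superset (frac_mem hU n) h⟩⟩⟩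
    obtain ⟨I, ε, e, h⟩ := nh (QuotientAddGroup.continuous_mk.tendsto' 0 0 rfl hS)
    obtain ⟨n, hn⟩ := exists_nat_one_div_lt e
    refine ⟨n + 1, by omega, fun y hy => ?_⟩
    obtain ⟨g, rfl⟩ := QuotientAddGroup.mk_surjective y
    have h1 : ((n + 1 : ℕ) : ℝ) * ‖g.1.2‖ < 1 := by
      have := hy (n + 1) (by omega) le_rfl
      rw [Set.mem_preimage, map_nsmul, mem_ball_zero_iff, RCLike.norm_nsmul ℝ, nsmul_eq_mul] at this
      exact this
    have := h ⟨(fun a => if a ∈ I then 0 else g.1.1 a, g.1.2),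
      memG.2 (((memG.1 g.2).and I.eventually_cofinite_notMem).mono fun a ha => by
        simpa [ha.2] using ha.1)⟩
      (fun a ha => if_pos ha) (by
        refine lt_trans ?_ hn
        rw [lt_div_iff₀ (by positivity), mul_comm]
        simpa using h1)
    rw [Set.mem_preimage] at this
    convert this using 1
    exact QuotientAddGroup.eq.2 (show -g.1.2 + g.1.2 = 0 from neg_add_cancel g.1.2)

noncomputable def H : AddSubgroup G where
  carrier := {g | ∀ a : ℕ × ℕ, g.1.1 a = g.1.1 (a.1, 0)}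
  zero_mem' := fun _ => rfl
  neg_mem' := fun h a => congrArg Neg.neg (h a)
  add_mem' := fun h h' a => congrArg₂ (· + ·) (h a) (h' a)

lemma HR (g : H) (i : ℕ) : (g.1.1.1 (i, 0), g.1.1.2 i) ∈ R := by
  have : Tendsto (fun m : ℕ => (i, m)) cofinite cofinite :=
    Function.Injective.tendsto_cofinite fun _ _ h => (Prod.ext_iff.1 h).2
  obtain ⟨m, hm⟩ := (this.eventually (memG.1 g.1.2)).exists
  rwa [g.2] at hm

lemma snd_zero {M : AddSubgroup H} (hM : IsMinimal M) (x : M) : x.1.1.1.2 = 0 := by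
  have : Fact (0 < √2) := ⟨by positivity⟩
  let j : M →+ K × (ℕ → AddCircle (√2)) :=
    { toFun := fun x => (x.1.1.1.1, fun i => (x.1.1.1.2 i : ℝ))
      map_zero' := rfl
      map_add' := fun _ _ => rfl }
  have cj : Continuous j := by
    refine .prodMk (by fun_prop) (continuous_pi fun i => (AddCircle.continuous_mk' _).comp ?_)
    exact (lp.lipschitzWith_one_eval ∞ i).continuous.comp (by fun_prop)
  have ij : Function.Injective j := (injective_iff_map_eq_zero j).2 fun x hx => by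
    refine Subtype.ext (Subtype.ext (Subtype.ext (Prod.ext (Prod.ext_iff.1 hx).1 ?_)))
    ext i
    exact R2 (HR x i) (congrFun (congrArg Prod.snd hx) i)
  have ind : IsInducing j := ⟨(hM _ (topologicalAddGroup_induced j)
    (@IsEmbedding.t2Space _ _ (.induced j inferInstance) _ _ _ (@IsEmbedding.mk _ _
      (.induced j inferInstance) _ _ (@IsInducing.mk _ _ (.induced j inferInstance) _ _ rfl) ij))
    cj.le_induced).symm⟩
  obtain ⟨s, s1, s2⟩ := (ind.nhds_eq_comap 0 ▸ mem_comap).1 (Continuous.tendsto'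
    (f := fun y : M => y.1.1.1.2) (by fun_prop) 0 0 rfl (Metric.ball_mem_nhds 0 one_pos))
  by_contra hne
  obtain ⟨n, hn⟩ := exists_nat_gt ‖x.1.1.1.2‖⁻¹
  obtain ⟨m, m1, m2⟩ := frequently_atTop.1 (mapClusterPt_iff_frequently.1
    (mapClusterPt_zero_atTop_nsmul (j x)) s (map_zero j ▸ s1)) n
  have : ‖m • x.1.1.1.2‖ < 1 := mem_ball_zero_iff.1 (s2 (a := m • x) (by simpa using m2))
  rw [RCLike.norm_nsmul ℝ, nsmul_eq_mul] at this
  have p := norm_pos_iff.2 hne
  rw [inv_lt_iff_one_lt_mul₀ p] at hn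
  have : (n : ℝ) ≤ m := by exact_mod_cast m1
  nlinarith

theorem result : ∃ (G : Type) (_ : AddCommGroup G) (_ : TopologicalSpace G)
    (_ : IsTopologicalAddGroup G) (_ : T2Space G), AlmostMinimal G ∧
      ∃ H : AddSubgroup G, IsClosed (H : Set G) ∧ ¬ AlmostMinimal H := by
  refine ⟨G, inferInstance, inferInstance, inferInstance, inferInstance, am, H, ?_, ?_⟩
  · have : (H : Set G) = ⋂ a : ℕ × ℕ, {g : G | g.1.1 a = g.1.1 (a.1, 0)} := by
      ext; simp [H]
    rw [this]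
    exact isClosed_iInter fun a => isClosed_eq (by fun_prop) (by fun_prop)
  rintro ⟨M, -, hM, U, hU, -, hb⟩
  obtain ⟨S, hS, hs⟩ := (mem_nhds_subtype _ _ _).1
    (QuotientAddGroup.continuous_mk.tendsto' 0 0 rfl hU)
  obtain ⟨I, ε, e, h⟩ := nh hS
  obtain ⟨s, hs'⟩ := Infinite.exists_notMem_finset (I.image Prod.fst)
  let W : Set H := {g | 2 • g.1.1.1 (s, 0) = 0}
  have hW : W ∈ 𝓝 0 := (isOpen_discrete {0}).preimage (f := fun g : H => 2 • g.1.1.1 (s, 0))
    (by fun_prop) |>.mem_nhds rfl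
  obtain ⟨n, -, hn⟩ := hb.mem_iff.1 ((QuotientAddGroup.isOpenMap_coe (N := M)).image_mem_nhds hW)
  obtain ⟨m, hm⟩ := pow_unbounded_of_one_lt (n / ε) (show (1 : ℝ) < 3 by norm_num)
  let g : H := ⟨⟨(fun a => if a.1 = s then 1 else 0, lp.single ∞ s (3 ^ m)⁻¹),
    memG.2 (.of_forall fun a => by
      by_cases ha : a.1 = s
      · simpa [ha] using R1 m
      · simp only [if_neg ha, lp.single_apply_ne _ _ _ ha]; exact R.zero_mem)⟩, fun _ => rfl⟩
  obtain ⟨w, hw, e'⟩ := hn (a := (g : H ⧸ M)) fun k _ hk => hs (a := k • g) (h _ (fun a ha => by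
    have : a.1 ≠ s := fun e => hs' (Finset.mem_image.2 ⟨a, ha, e⟩)
    simp [g, this]) (by
      have : ‖k • lp.single (E := fun _ : ℕ => ℝ) ∞ s (3 ^ m)⁻¹‖ < ε := by
        rw [RCLike.norm_nsmul ℝ, lp.norm_single (by simp), nsmul_eq_mul, Real.norm_of_nonneg
          (by positivity), ← div_eq_mul_inv, div_lt_comm₀ (by positivity) e]
        exact lt_of_le_of_lt (by gcongr) hm
      exact this))
  have h1 := HR (-w + g) s
  rw [snd_zero hM ⟨_, QuotientAddGroup.eq.1 e'⟩] at h1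
  have h2 : 2 • (-w.1.1.1 (s, 0) + if s = s then 1 else 0) = 0 := R0.1 h1
  rw [smul_add, smul_neg, show 2 • w.1.1.1 (s, 0) = 0 from hw, if_pos rfl] at h2
  exact absurd h2 (by decide)

end Pool.Agent.Results.MP_e403d1_gt.Counter
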